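import Pool.Agent.H90.STK.Stmts

/-!
# Lines seen at the times of a Hilbert cube
-/

set_option autoImplicit false

namespace Pool.H1.STE

open Finset Real
open Pool.Agent.H49.Ent Pool.Agent.H32.Dense Pool.STK

/-- The time at a vertex of the cube. -/
noncomputable def tm {n : ℕ} (t₀ : ℝ) (h : Fin n → ℝ) (w : Finset (Fin n)) : ℝ :=
  t₀ + ∑ i ∈ w, h i

/-- The position at a vertex of the cube. -/
def evc {m n : ℕ} (w : Finset (Fin n)) (l : (Fin m → ℤ) × (Fin n → Fin m → ℤ)) : Fin m → ℤ :=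
  l.1 + ∑ i ∈ w, l.2 i

/-- The sum of `2 ^ n` copies. -/
def TC {G : Type} [AddCommGroup G] {Ω : Type} (n : ℕ) (A : Ω → G) (w : Finset (Fin n) → Ω) : G :=
  ∑ x, A (w x)

/-- The vector of the variables with index in `F`. -/
def sel {κ Ω S : Type} [DecidableEq κ] (F : Finset κ) (X : κ → Ω → S) (ω : Ω) (i : κ) : Option S :=
  if i ∈ F then some (X i ω) else none

theorem sel_eq {κ Ω S : Type} [DecidableEq κ] {F : Finset κ} {X : κ → Ω → S} {ω ω' : Ω} :
    sel F X ω = sel F X ω' ↔ ∀ i ∈ F, X i ω = X i ω' := by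
  constructor
  · intro h i hi
    have := congrFun h i
    simpa [sel, hi] using this
  · intro h
    funext i
    by_cases hi : i ∈ F
    · simp [sel, hi, h i hi]
    · simp [sel, hi]

theorem CH_sel {κ Ω S T : Type} [Fintype Ω] [DecidableEq κ] {q : Ω → ℝ} (hq : ∀ ω, 0 ≤ q ω)
    (F : Finset κ) (X : κ → Ω → S) (W : Ω → T) :
    CH q (sel F X) W ≤ ∑ i ∈ F, CH q (X i) W := by
  induction F using Finset.induction_on with
  | empty =>
    rw [Finset.sum_empty]
    exact le_of_eq (CH_eq_zero hq (fun ω ω' _ _ _ => sel_eq.2 (by simp)))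
  | insert a F ha ih =>
    rw [Finset.sum_insert ha]
    have h1 : CH q (sel (insert a F) X) W ≤ CH q (fun ω => (X a ω, sel F X ω)) W := by
      refine CH_mono_left hq ?_
      intro ω ω' _ _ h
      simp only [Prod.mk.injEq] at h
      refine sel_eq.2 ?_
      intro i hi
      rcases Finset.mem_insert.1 hi with rfl | hi
      · exact h.1.1
      · exact sel_eq.1 h.1.2 i hi
    have h2 := CH_subadd hq (X a) (sel F X) W
    linarith

theorem H_sel {κ Ω S T U : Type} [Fintype Ω] [DecidableEq κ] {q : Ω → ℝ} (hq : ∀ ω, 0 ≤ q ω)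
    (F : Finset κ) (X : κ → Ω → S) (W : Ω → T) (c : κ → ℝ) (hc : ∀ i ∈ F, CH q (X i) W ≤ c i)
    (V : Ω → U) (hV : Det q (fun ω => (sel F X ω, W ω)) V) :
    H q V ≤ H q W + ∑ i ∈ F, c i := by
  have h1 := H_mono hq hV
  have h2 := CH_sel hq F X W
  have h3 := Finset.sum_le_sum hc
  unfold CH at h2
  unfold CH at h3
  linarith

theorem CH_le_H {Ω S T : Type} [Fintype Ω] {q : Ω → ℝ} (hq : IsLaw q) (X : Ω → S) (W : Ω → T) :
    CH q X W ≤ H q X := by
  have := subadd hq.nonneg hq.sum_one (X := X) (Y := W) (W := fun ω => (X ω, W ω))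
    (fun _ _ _ _ h => h)
  unfold CH
  linarith

theorem CH_le_sub {Ω S T U : Type} [Fintype Ω] {q : Ω → ℝ} (hq : ∀ ω, 0 ≤ q ω) (X : Ω → S)
    (f : S → U) (W : Ω → T) :
    CH q X W ≤ CH q (fun ω => f (X ω)) W + (H q X - H q (fun ω => f (X ω))) := by
  have h1 := CH_le_add hq X (fun ω => f (X ω)) W
  have h2 : CH q X (fun ω => (f (X ω), W ω)) ≤ CH q X (fun ω => f (X ω)) :=
    CH_mono_cond hq (fun _ _ _ _ h => (Prod.ext_iff.mp h).1)
  have h3 : CH q X (fun ω => f (X ω)) = H q X - H q (fun ω => f (X ω)) := by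
    unfold CH
    congr 1
    exact H_congr hq (fun _ _ _ _ h => Prod.ext h (congrArg f h))
      (fun _ _ _ _ h => (Prod.ext_iff.mp h).1)
  linarith

end Pool.H1.STE
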