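import Pool.Agent.H1.STE.Inc
import Pool.Agent.H1.STE.Defs
import Pool.Agent.H57.STK.SUM
import Pool.Agent.H40.STK.PRD
import Pool.Agent.H34.STK.PRM

/-!
# The step for Hilbert cubes
-/

set_option autoImplicit false

namespace Pool.H1.STE

open Finset Real
open Pool.Agent.H49.Ent Pool.Agent.H32.Dense Pool.STK

section

variable {m n : ℕ} {Ω : Type}

/-- The sum of the copies with index above `S`. -/
def zc (A : Ω → (Fin m → ℤ) × (Fin n → Fin m → ℤ)) (S : Finset (Fin n))
    (w : Finset (Fin n) → Ω) : (Fin m → ℤ) × (Fin n → Fin m → ℤ) :=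
  ∑ x ∈ univ.filter (fun x : Finset (Fin n) => S ⊆ x), A (w x)

/-- The positions. -/
def ec (A : Ω → (Fin m → ℤ) × (Fin n → Fin m → ℤ)) (w : Finset (Fin n) → Ω)
    (x : Finset (Fin n)) : Fin m → ℤ := evc x (A (w x))

theorem zc_fst (A : Ω → (Fin m → ℤ) × (Fin n → Fin m → ℤ)) (S : Finset (Fin n))
    (w : Finset (Fin n) → Ω) :
    (zc A S w).1 = ∑ x ∈ univ.filter (fun x : Finset (Fin n) => S ⊆ x), (A (w x)).1 := by
  unfold zc
  rw [Prod.fst_sum]

theorem zc_snd (A : Ω → (Fin m → ℤ) × (Fin n → Fin m → ℤ)) (S : Finset (Fin n))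
    (w : Finset (Fin n) → Ω) (i : Fin n) :
    (zc A S w).2 i = ∑ x ∈ univ.filter (fun x : Finset (Fin n) => S ⊆ x), (A (w x)).2 i := by
  unfold zc
  rw [Prod.snd_sum, Finset.sum_apply]

/-- The exact relation. -/
theorem rel (A : Ω → (Fin m → ℤ) × (Fin n → Fin m → ℤ)) (S : Finset (Fin n))
    (w : Finset (Fin n) → Ω) :
    (zc A S w).1 + ∑ i, (zc A (insert i S) w).2 i =
      ∑ x ∈ univ.filter (fun x : Finset (Fin n) => S ⊆ x), ec A w x := by
  rw [zc_fst]
  simp only [zc_snd, ec, evc]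
  rw [Finset.sum_add_distrib]
  congr 1
  rw [Finset.sum_filter]
  have h1 : ∀ i : Fin n, ∑ x ∈ univ.filter (fun x : Finset (Fin n) => insert i S ⊆ x), (A (w x)).2 i
      = ∑ x : Finset (Fin n), if S ⊆ x ∧ i ∈ x then (A (w x)).2 i else 0 := by
    intro i
    rw [Finset.sum_filter]
    refine Finset.sum_congr rfl fun x _ => ?_
    simp only [Finset.insert_subset_iff, and_comm]
  simp only [h1]
  rw [Finset.sum_comm]
  refine Finset.sum_congr rfl fun x _ => ?_
  by_cases hx : S ⊆ x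
  · simp only [hx, true_and, if_true]
    rw [← Finset.sum_filter]
    refine Finset.sum_congr ?_ fun _ _ => rfl
    ext i
    simp
  · simp [hx]

/-- The relation for differences. -/
theorem rel_diff (A : Ω → (Fin m → ℤ) × (Fin n → Fin m → ℤ)) (S : Finset (Fin n))
    (w w' : Finset (Fin n) → Ω) (he : ec A w = ec A w') (hS : zc A S w = zc A S w') :
    ∑ i ∈ Sᶜ, ((zc A (insert i S) w).2 i - (zc A (insert i S) w').2 i) = 0 := by
  have h1 := rel A S w
  have h2 := rel A S w'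
  rw [he, ← h2, hS] at h1
  have h3 := add_left_cancel h1
  have h4 : ∑ i, ((zc A (insert i S) w).2 i - (zc A (insert i S) w').2 i) = 0 := by
    rw [Finset.sum_sub_distrib, h3, sub_self]
  rw [← Finset.sum_add_sum_compl S] at h4
  rw [Finset.sum_eq_zero (s := S)] at h4
  · simpa using h4
  · intro i hi
    rw [Finset.insert_eq_of_mem hi, hS, sub_self]

/-- The errors of the directions. -/
theorem err (A : Ω → (Fin m → ℤ) × (Fin n → Fin m → ℤ)) (S : Finset (Fin n))
    (w : Finset (Fin n) → Ω) (h : Fin n → ℝ) (E : ℝ) (hE : 0 ≤ E)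
    (hA : ∀ ω i j c, |((A ω).2 i c : ℝ) / h i - (A ω).2 j c / h j| ≤ E) (i j : Fin n) (c : Fin m) :
    |((zc A S w).2 i c : ℝ) / h i - (zc A S w).2 j c / h j| ≤ 2 ^ n * E := by
  rw [zc_snd, zc_snd]
  simp only [Finset.sum_apply]
  push_cast
  rw [Finset.sum_div, Finset.sum_div, ← Finset.sum_sub_distrib]
  refine (Finset.abs_sum_le_sum_abs _ _).trans ?_
  refine (Finset.sum_le_sum fun x _ => hA (w x) i j c).trans ?_
  rw [Finset.sum_const, nsmul_eq_mul]
  refine mul_le_mul_of_nonneg_right ?_ hE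
  have : (univ.filter (fun x : Finset (Fin n) => S ⊆ x)).card ≤ 2 ^ n := by
    refine (Finset.card_filter_le _ _).trans ?_
    simp
  exact_mod_cast this

end

/-- The selected sets of level `j + 1`. -/
noncomputable def Ph (n j : ℕ) : Finset (Finset (Fin n)) := (inc n j).choose

/-- The coefficients. -/
noncomputable def alc (n j : ℕ) : Finset (Fin n) → Finset (Fin n) → ℝ := (inc n j).choose_spec.choose

theorem Ph_sub (n j : ℕ) : Ph n j ⊆ lev n (j + 1) :=
  (inc n j).choose_spec.choose_spec.choose_spec.1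

theorem Ph_card (n j : ℕ) : (Ph n j).card = min (n.choose j) (n.choose (j + 1)) :=
  (inc n j).choose_spec.choose_spec.choose_spec.2.1

theorem Ph_rel (n j : ℕ) (Y : Finset (Fin n) → ℝ) (hY : ∀ S ∈ lev n (j + 1) \ Ph n j, Y S = 0) :
    ∀ φ ∈ Ph n j, Y φ = ∑ S ∈ lev n j, alc n j φ S * (∑ i ∈ Sᶜ, Y (insert i S)) := by
  intro φ hφ
  have h := (inc n j).choose_spec.choose_spec.choose_spec.2.2 Y φ hφ
  rw [h]
  have h2 : ∑ S ∈ lev n (j + 1) \ (inc n j).choose,
      (inc n j).choose_spec.choose_spec.choose φ S * Y S = 0 := by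
    refine Finset.sum_eq_zero fun S hS => ?_
    rw [hY S hS, mul_zero]
  rw [h2, add_zero]
  rfl

/-- The total of the coefficients. -/
noncomputable def Kal (n : ℕ) : ℝ :=
  ∑ j ∈ Finset.range n, ∑ φ : Finset (Fin n), ∑ S : Finset (Fin n), |alc n j φ S|

theorem Kal_nonneg (n : ℕ) : 0 ≤ Kal n :=
  Finset.sum_nonneg fun _ _ => Finset.sum_nonneg fun _ _ => Finset.sum_nonneg fun _ _ =>
    abs_nonneg _

theorem le_Kal (n j : ℕ) (hj : j < n) (φ : Finset (Fin n)) :
    ∑ S ∈ lev n j, |alc n j φ S| ≤ Kal n := by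
  unfold Kal
  have h1 : ∑ S ∈ lev n j, |alc n j φ S| ≤ ∑ S : Finset (Fin n), |alc n j φ S| :=
    Finset.sum_le_sum_of_subset_of_nonneg (Finset.subset_univ _) fun _ _ _ => abs_nonneg _
  have h2 : ∑ S : Finset (Fin n), |alc n j φ S| ≤
      ∑ φ : Finset (Fin n), ∑ S : Finset (Fin n), |alc n j φ S| :=
    Finset.single_le_sum (f := fun φ => ∑ S : Finset (Fin n), |alc n j φ S|)
      (fun _ _ => Finset.sum_nonneg fun _ _ => abs_nonneg _) (Finset.mem_univ φ)
  have h3 := Finset.single_le_sum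
    (f := fun j => ∑ φ : Finset (Fin n), ∑ S : Finset (Fin n), |alc n j φ S|)
    (fun _ _ => Finset.sum_nonneg fun _ _ => Finset.sum_nonneg fun _ _ => abs_nonneg _)
    (Finset.mem_range.2 hj)
  exact h1.trans (h2.trans h3)

section

variable {m n : ℕ} {Ω : Type}

/-- The selected directions are determined up to a bounded error. -/
theorem dir_err (A : Ω → (Fin m → ℤ) × (Fin n → Fin m → ℤ)) (j : ℕ) (hj : j < n)
    (w w' : Finset (Fin n) → Ω) (h : Fin n → ℝ) (E : ℝ) (hE : 0 ≤ E)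
    (hh : ∀ i, 0 < |h i| ∧ |h i| ≤ 1)
    (hA : ∀ ω i j c, |((A ω).2 i c : ℝ) / h i - (A ω).2 j c / h j| ≤ E) (i₀ : Fin n)
    (he : ec A w = ec A w') (hS : ∀ S ∈ lev n j, zc A S w = zc A S w')
    (hC : ∀ S ∈ lev n (j + 1) \ Ph n j, zc A S w = zc A S w') (φ : Finset (Fin n))
    (hφ : φ ∈ Ph n j) (c : Fin m) :
    |(((zc A φ w).2 i₀ c - (zc A φ w').2 i₀ c : ℤ) : ℝ)| ≤
      Kal n * (n * (2 * 2 ^ n)) * (E / ∏ i, |h i|) := by
  classical
  set Y : Finset (Fin n) → ℝ := fun S => (∏ i ∈ S, h i) *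
    ((((zc A S w).2 i₀ c : ℝ) - (zc A S w').2 i₀ c) / h i₀) with hY
  have hY0 : ∀ S ∈ lev n (j + 1) \ Ph n j, Y S = 0 := by
    intro S hS'
    simp only [hY, hC S hS', sub_self, zero_div, mul_zero]
  have hrel := Ph_rel n j Y hY0 φ hφ
  have hprod : ∀ S : Finset (Fin n), |∏ i ∈ S, h i| ≤ 1 := by
    intro S
    rw [Finset.abs_prod]
    exact Finset.prod_le_one (fun i _ => abs_nonneg _) (fun i _ => (hh i).2)
  -- the right hand sides are small
  have hR : ∀ S ∈ lev n j, |∑ i ∈ Sᶜ, Y (insert i S)| ≤ n * (2 * 2 ^ n) * E := by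
    intro S hSj
    have e0 := rel_diff A S w w' he (hS S hSj)
    have e1 : ∑ i ∈ Sᶜ, (((zc A (insert i S) w).2 i c : ℝ) - (zc A (insert i S) w').2 i c) = 0 := by
      have := congrFun e0 c
      rw [Finset.sum_apply] at this
      have h2 : ((∑ i ∈ Sᶜ, ((zc A (insert i S) w).2 i - (zc A (insert i S) w').2 i) c : ℤ) : ℝ)
          = 0 := by
        rw [this]; simp
      push_cast [Pi.sub_apply] at h2
      exact h2
    have e2 : ∑ i ∈ Sᶜ, Y (insert i S) = (∏ i ∈ S, h i) * ∑ i ∈ Sᶜ, h i *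
        (((((zc A (insert i S) w).2 i₀ c : ℝ) / h i₀ - (zc A (insert i S) w).2 i c / h i)) -
        ((((zc A (insert i S) w').2 i₀ c : ℝ) / h i₀ - (zc A (insert i S) w').2 i c / h i))) := by
      have e3 : ∀ i ∈ Sᶜ, Y (insert i S) = (∏ i ∈ S, h i) * (h i *
        (((((zc A (insert i S) w).2 i₀ c : ℝ) / h i₀ - (zc A (insert i S) w).2 i c / h i)) -
        ((((zc A (insert i S) w').2 i₀ c : ℝ) / h i₀ - (zc A (insert i S) w').2 i c / h i)))) +
        (∏ i ∈ S, h i) * (((zc A (insert i S) w).2 i c : ℝ) - (zc A (insert i S) w').2 i c) := by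
        intro i hi
        have hi' : i ∉ S := by simpa using hi
        simp only [hY]
        rw [Finset.prod_insert hi']
        have hi0 : h i ≠ 0 := abs_pos.1 (hh i).1
        field_simp
        ring
      rw [Finset.sum_congr rfl e3, Finset.sum_add_distrib, ← Finset.mul_sum, ← Finset.mul_sum, e1]
      ring
    rw [e2, abs_mul]
    have e4 : |∑ i ∈ Sᶜ, h i *
        (((((zc A (insert i S) w).2 i₀ c : ℝ) / h i₀ - (zc A (insert i S) w).2 i c / h i)) -
        ((((zc A (insert i S) w').2 i₀ c : ℝ) / h i₀ - (zc A (insert i S) w').2 i c / h i)))| ≤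
        n * (2 * 2 ^ n) * E := by
      refine (Finset.abs_sum_le_sum_abs _ _).trans ?_
      have e5 : ∀ i ∈ Sᶜ, |h i *
        (((((zc A (insert i S) w).2 i₀ c : ℝ) / h i₀ - (zc A (insert i S) w).2 i c / h i)) -
        ((((zc A (insert i S) w').2 i₀ c : ℝ) / h i₀ - (zc A (insert i S) w').2 i c / h i)))| ≤
          2 * 2 ^ n * E := by
        intro i _
        rw [abs_mul]
        have a1 := err A (insert i S) w h E hE hA i₀ i c
        have a2 := err A (insert i S) w' h E hE hA i₀ i c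
        have a3 := abs_sub (((zc A (insert i S) w).2 i₀ c : ℝ) / h i₀ -
          (zc A (insert i S) w).2 i c / h i)
          (((zc A (insert i S) w').2 i₀ c : ℝ) / h i₀ - (zc A (insert i S) w').2 i c / h i)
        have a4 := mul_le_mul (hh i).2 (a3.trans (add_le_add a1 a2)) (abs_nonneg _) zero_le_one
        linarith
      refine (Finset.sum_le_sum e5).trans ?_
      rw [Finset.sum_const, nsmul_eq_mul]
      have e6 : ((Sᶜ).card : ℝ) ≤ n := by
        have : (Sᶜ).card ≤ n := by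
          have := Finset.card_le_univ (Sᶜ)
          simpa using this
        exact_mod_cast this
      have e7 : 0 ≤ 2 * 2 ^ n * E := by positivity
      calc ((Sᶜ).card : ℝ) * (2 * 2 ^ n * E) ≤ n * (2 * 2 ^ n * E) :=
            mul_le_mul_of_nonneg_right e6 e7
        _ = n * (2 * 2 ^ n) * E := by ring
    calc |∏ i ∈ S, h i| * _ ≤ 1 * (n * (2 * 2 ^ n) * E) :=
          mul_le_mul (hprod S) e4 (abs_nonneg _) zero_le_one
      _ = _ := one_mul _
  have hYφ : |Y φ| ≤ Kal n * (n * (2 * 2 ^ n) * E) := by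
    rw [hrel]
    refine (Finset.abs_sum_le_sum_abs _ _).trans ?_
    have e1 : ∀ S ∈ lev n j, |alc n j φ S * ∑ i ∈ Sᶜ, Y (insert i S)| ≤
        |alc n j φ S| * (n * (2 * 2 ^ n) * E) := by
      intro S hSj
      rw [abs_mul]
      exact mul_le_mul_of_nonneg_left (hR S hSj) (abs_nonneg _)
    refine (Finset.sum_le_sum e1).trans ?_
    rw [← Finset.sum_mul]
    exact mul_le_mul_of_nonneg_right (le_Kal n j hj φ) (by positivity)
  have hφ0 : 0 < ∏ i ∈ φ, |h i| := Finset.prod_pos fun i _ => (hh i).1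
  have hu0 : 0 < ∏ i, |h i| := Finset.prod_pos fun i _ => (hh i).1
  have hle : ∏ i, |h i| ≤ ∏ i ∈ φ, |h i| := by
    rw [← Finset.prod_mul_prod_compl φ]
    have h1 : ∏ i ∈ φᶜ, |h i| ≤ 1 := Finset.prod_le_one (fun i _ => abs_nonneg _) (fun i _ => (hh i).2)
    nlinarith
  have e8 : |(((zc A φ w).2 i₀ c - (zc A φ w').2 i₀ c : ℤ) : ℝ)| =
      |h i₀| * |Y φ| / ∏ i ∈ φ, |h i| := by
    simp only [hY]
    rw [abs_mul, abs_div, Finset.abs_prod]
    have hi0 : |h i₀| ≠ 0 := (hh i₀).1.ne'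
    push_cast
    field_simp
  rw [e8]
  calc |h i₀| * |Y φ| / ∏ i ∈ φ, |h i| ≤ 1 * (Kal n * (n * (2 * 2 ^ n) * E)) / ∏ i, |h i| := by
        have := mul_le_mul (hh i₀).2 hYφ (abs_nonneg _) zero_le_one
        have h0 : 0 ≤ 1 * (Kal n * (n * (2 * 2 ^ n) * E)) := by
          have := Kal_nonneg n
          positivity
        exact div_le_div₀ h0 this hu0 hle
    _ = _ := by ring

end

end Pool.H1.STE
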