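import Mathlib

/-!
# Inclusion matrices of the Boolean lattice have full rank
-/

set_option autoImplicit false

namespace Pool.H1.STE

open Finset

variable {n : ℕ}

/-- Sum over the sets with one more element. -/
noncomputable def dn (f : Finset (Fin n) → ℝ) (S : Finset (Fin n)) : ℝ := ∑ i ∈ Sᶜ, f (insert i S)

/-- Sum over the sets with one element less. -/
noncomputable def up (f : Finset (Fin n) → ℝ) (S : Finset (Fin n)) : ℝ := ∑ i ∈ S, f (S.erase i)

/-- The sets with `j` elements. -/
def lev (n j : ℕ) : Finset (Finset (Fin n)) := Finset.powersetCard j Finset.univ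

theorem mem_lev {j : ℕ} {S : Finset (Fin n)} : S ∈ lev n j ↔ S.card = j := by
  simp [lev, Finset.mem_powersetCard]

theorem card_lev (n j : ℕ) : (lev n j).card = n.choose j := by
  simp [lev]

theorem dn_up (f : Finset (Fin n) → ℝ) (S : Finset (Fin n)) :
    dn (up f) S = up (dn f) S + ((n : ℝ) - 2 * S.card) * f S := by
  have h1 : dn (up f) S = ((n : ℝ) - S.card) * f S + ∑ i ∈ Sᶜ, ∑ k ∈ S, f (insert i (S.erase k)) := by
    have : dn (up f) S = ∑ i ∈ Sᶜ, (f S + ∑ k ∈ S, f (insert i (S.erase k))) := by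
      unfold dn up
      refine Finset.sum_congr rfl fun i hi => ?_
      have hi' : i ∉ S := by simpa using hi
      rw [Finset.sum_insert hi', Finset.erase_insert hi']
      congr 1
      refine Finset.sum_congr rfl fun k hk => ?_
      have hik : i ≠ k := fun h => hi' (h ▸ hk)
      rw [Finset.erase_insert_of_ne hik]
    rw [this, Finset.sum_add_distrib, Finset.sum_const, Finset.card_compl, Fintype.card_fin,
      nsmul_eq_mul, Nat.cast_sub (by simpa using Finset.card_le_univ S)]
  have h2 : up (dn f) S = (S.card : ℝ) * f S + ∑ i ∈ Sᶜ, ∑ k ∈ S, f (insert i (S.erase k)) := by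
    have : up (dn f) S = ∑ k ∈ S, (f S + ∑ i ∈ Sᶜ, f (insert i (S.erase k))) := by
      unfold dn up
      refine Finset.sum_congr rfl fun k hk => ?_
      have hc : (S.erase k)ᶜ = insert k Sᶜ := by
        ext x
        by_cases hx : x = k <;> simp [hx, hk]
      show ∑ i ∈ (S.erase k)ᶜ, f (insert i (S.erase k)) = _
      rw [hc, Finset.sum_insert (by simpa using hk), Finset.insert_erase hk]
    rw [this, Finset.sum_add_distrib, Finset.sum_const, nsmul_eq_mul]
    congr 1
    rw [Finset.sum_comm]
  rw [h1, h2]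
  ring

theorem adj (g f : Finset (Fin n) → ℝ) (j : ℕ) :
    ∑ S ∈ lev n j, g S * dn f S = ∑ S ∈ lev n (j + 1), up g S * f S := by
  simp only [dn, up, Finset.mul_sum, Finset.sum_mul]
  rw [Finset.sum_sigma', Finset.sum_sigma']
  refine Finset.sum_nbij' (fun x => ⟨insert x.2 x.1, x.2⟩) (fun x => ⟨x.1.erase x.2, x.2⟩)
    ?_ ?_ ?_ ?_ ?_
  · rintro ⟨S, i⟩ h
    simp only [Finset.mem_sigma, mem_lev, Finset.mem_compl] at h
    simp only [Finset.mem_sigma, mem_lev]
    exact ⟨by rw [Finset.card_insert_of_notMem h.2, h.1], Finset.mem_insert_self _ _⟩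
  · rintro ⟨S, i⟩ h
    simp only [Finset.mem_sigma, mem_lev, Finset.mem_compl] at h ⊢
    exact ⟨by rw [Finset.card_erase_of_mem h.2, h.1]; rfl, by simp⟩
  · rintro ⟨S, i⟩ h
    simp only [Finset.mem_sigma, mem_lev, Finset.mem_compl] at h ⊢
    rw [Finset.erase_insert h.2]
  · rintro ⟨S, i⟩ h
    simp only [Finset.mem_sigma, mem_lev, Finset.mem_compl] at h ⊢
    rw [Finset.insert_erase h.2]
  · rintro ⟨S, i⟩ h
    simp only [Finset.mem_sigma, mem_lev, Finset.mem_compl] at h ⊢
    rw [Finset.erase_insert h.2]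

theorem up_inj (g : Finset (Fin n) → ℝ) (j : ℕ) (hj : 2 * j < n)
    (h : ∀ S ∈ lev n (j + 1), up g S = 0) : ∀ S ∈ lev n j, g S = 0 := by
  have h0 : ∑ S ∈ lev n j, g S * dn (up g) S = 0 := by
    rw [adj]
    exact Finset.sum_eq_zero fun S hS => by rw [h S hS, zero_mul]
  have h1 : ∑ S ∈ lev n j, g S * dn (up g) S
      = ∑ S ∈ lev n j, g S * up (dn g) S + ((n : ℝ) - 2 * j) * ∑ S ∈ lev n j, g S ^ 2 := by
    rw [Finset.mul_sum, ← Finset.sum_add_distrib]
    refine Finset.sum_congr rfl fun S hS => ?_
    rw [dn_up, mem_lev.1 hS]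
    ring
  have h2 : 0 ≤ ∑ S ∈ lev n j, g S * up (dn g) S := by
    rcases Nat.eq_zero_or_pos j with rfl | hpos
    · refine Finset.sum_nonneg fun S hS => ?_
      have : S = ∅ := Finset.card_eq_zero.1 (mem_lev.1 hS)
      simp [this, up]
    · obtain ⟨i, rfl⟩ : ∃ i, j = i + 1 := ⟨j - 1, by omega⟩
      have e : ∑ S ∈ lev n (i + 1), g S * up (dn g) S = ∑ S ∈ lev n (i + 1), up (dn g) S * g S :=
        Finset.sum_congr rfl fun S _ => mul_comm _ _
      rw [e, ← adj]
      exact Finset.sum_nonneg fun S _ => mul_self_nonneg _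
  have h3 : (0 : ℝ) < (n : ℝ) - 2 * j := by
    have : (2 * j : ℝ) < n := by exact_mod_cast hj
    linarith
  have h4 : ∑ S ∈ lev n j, g S ^ 2 = 0 := by
    have h5 : 0 ≤ ∑ S ∈ lev n j, g S ^ 2 := Finset.sum_nonneg fun S _ => sq_nonneg _
    have h6 : ((n : ℝ) - 2 * j) * ∑ S ∈ lev n j, g S ^ 2 ≤ 0 := by linarith
    by_contra hne
    have : 0 < ∑ S ∈ lev n j, g S ^ 2 := lt_of_le_of_ne h5 (Ne.symm hne)
    have := mul_pos h3 this
    linarith
  intro S hS
  have := (Finset.sum_eq_zero_iff_of_nonneg (fun S _ => sq_nonneg (g S))).1 h4 S hS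
  exact pow_eq_zero_iff (two_ne_zero) |>.1 this

theorem dn_inj (f : Finset (Fin n) → ℝ) (j : ℕ) (hj : n < 2 * (j + 1))
    (h : ∀ S ∈ lev n j, dn f S = 0) : ∀ S ∈ lev n (j + 1), f S = 0 := by
  have h0 : ∑ S ∈ lev n (j + 1), up (dn f) S * f S = 0 := by
    rw [← adj]
    exact Finset.sum_eq_zero fun S hS => by rw [h S hS, zero_mul]
  have h1 : ∑ S ∈ lev n (j + 1), f S * dn (up f) S
      = ∑ S ∈ lev n (j + 1), up (dn f) S * f S
        + ((n : ℝ) - 2 * (j + 1)) * ∑ S ∈ lev n (j + 1), f S ^ 2 := by
    rw [Finset.mul_sum, ← Finset.sum_add_distrib]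
    refine Finset.sum_congr rfl fun S hS => ?_
    rw [dn_up, mem_lev.1 hS]
    push_cast
    ring
  have h2 : 0 ≤ ∑ S ∈ lev n (j + 1), f S * dn (up f) S := by
    rw [adj]
    exact Finset.sum_nonneg fun S _ => mul_self_nonneg _
  have h3 : (n : ℝ) - 2 * (j + 1) < 0 := by
    have : (n : ℝ) < 2 * (j + 1) := by exact_mod_cast hj
    linarith
  have h4 : ∑ S ∈ lev n (j + 1), f S ^ 2 = 0 := by
    have h5 : 0 ≤ ∑ S ∈ lev n (j + 1), f S ^ 2 := Finset.sum_nonneg fun S _ => sq_nonneg _
    by_contra hne
    have : 0 < ∑ S ∈ lev n (j + 1), f S ^ 2 := lt_of_le_of_ne h5 (Ne.symm hne)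
    have := mul_neg_of_neg_of_pos h3 this
    linarith
  intro S hS
  have := (Finset.sum_eq_zero_iff_of_nonneg (fun S _ => sq_nonneg (f S))).1 h4 S hS
  exact pow_eq_zero_iff (two_ne_zero) |>.1 this

/-- The column of the inclusion matrix. -/
noncomputable def col (n j : ℕ) (S' : lev n (j + 1)) : (lev n j) → ℝ :=
  fun S => if (S : Finset (Fin n)) ⊆ S' then 1 else 0

theorem dn_eq (f : Finset (Fin n) → ℝ) (j : ℕ) (S : lev n j) :
    dn f S = ∑ S' : lev n (j + 1), f S' * col n j S' S := by
  have hS := mem_lev.1 S.2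
  have e : ∑ S' : lev n (j + 1), f S' * col n j S' S
      = ∑ S' ∈ lev n (j + 1), f S' * (if (S : Finset (Fin n)) ⊆ S' then 1 else 0) := by
    rw [← Finset.sum_coe_sort (lev n (j + 1))]
    rfl
  rw [e]
  simp only [mul_ite, mul_one, mul_zero]
  rw [← Finset.sum_filter, dn]
  refine Finset.sum_nbij (fun i => insert i (S : Finset (Fin n))) ?_ ?_ ?_ ?_
  · intro i hi
    have hi' : i ∉ (S : Finset (Fin n)) := by simpa using hi
    simp only [Finset.mem_filter, mem_lev]
    exact ⟨by rw [Finset.card_insert_of_notMem hi', hS], Finset.subset_insert _ _⟩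
  · intro a ha b hb hab
    have ha' : a ∉ (S : Finset (Fin n)) := by simpa using ha
    have hab' : insert a (S : Finset (Fin n)) = insert b (S : Finset (Fin n)) := hab
    have : a ∈ insert b (S : Finset (Fin n)) := hab' ▸ Finset.mem_insert_self a _
    rcases Finset.mem_insert.1 this with h | h
    · exact h
    · exact absurd h ha'
  · intro S' hS'
    simp only [Finset.coe_filter, Set.mem_ofPred_eq, mem_lev] at hS'
    obtain ⟨h1, h2⟩ := hS'
    have h3 : (S' \ (S : Finset (Fin n))).card = 1 := by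
      rw [Finset.card_sdiff_of_subset h2, h1, hS]; omega
    obtain ⟨i, hi⟩ := Finset.card_eq_one.1 h3
    have hi1 : i ∈ S' \ (S : Finset (Fin n)) := by rw [hi]; exact Finset.mem_singleton_self i
    rw [Finset.mem_sdiff] at hi1
    refine ⟨i, by simpa using hi1.2, ?_⟩
    show insert i (S : Finset (Fin n)) = S'
    rw [Finset.insert_eq, ← hi, Finset.sdiff_union_of_subset h2]
  · intro i hi
    rfl

/-- The inclusion matrix. -/
noncomputable def mat (n j : ℕ) : Matrix (lev n j) (lev n (j + 1)) ℝ := fun S S' => col n j S' S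

/-- Extension by zero. -/
noncomputable def ext0 {j : ℕ} (f : lev n j → ℝ) (S : Finset (Fin n)) : ℝ :=
  if h : S ∈ lev n j then f ⟨S, h⟩ else 0

theorem ext0_coe {j : ℕ} (f : lev n j → ℝ) (S : lev n j) : ext0 f S = f S := by
  simp [ext0]

theorem up_eq (g : Finset (Fin n) → ℝ) (j : ℕ) (S' : lev n (j + 1)) :
    up g S' = ∑ S : lev n j, g S * col n j S' S := by
  have hS := mem_lev.1 S'.2
  have e : ∑ S : lev n j, g S * col n j S' S
      = ∑ S ∈ lev n j, g S * (if S ⊆ (S' : Finset (Fin n)) then 1 else 0) := by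
    rw [← Finset.sum_coe_sort (lev n j)]
    rfl
  rw [e]
  simp only [mul_ite, mul_one, mul_zero]
  rw [← Finset.sum_filter, up]
  refine Finset.sum_nbij (fun i => (S' : Finset (Fin n)).erase i) ?_ ?_ ?_ ?_
  · intro i hi
    simp only [Finset.mem_filter, mem_lev]
    exact ⟨by rw [Finset.card_erase_of_mem hi, hS]; rfl, Finset.erase_subset _ _⟩
  · intro a ha b hb hab
    have hab' : (S' : Finset (Fin n)).erase a = (S' : Finset (Fin n)).erase b := hab
    by_contra hne
    have : a ∈ (S' : Finset (Fin n)).erase b := Finset.mem_erase.2 ⟨hne, ha⟩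
    rw [← hab'] at this
    simp at this
  · intro S hS2
    simp only [Finset.coe_filter, Set.mem_ofPred_eq, mem_lev] at hS2
    obtain ⟨h1, h2⟩ := hS2
    have h3 : ((S' : Finset (Fin n)) \ S).card = 1 := by
      rw [Finset.card_sdiff_of_subset h2, h1, hS]; omega
    obtain ⟨i, hi⟩ := Finset.card_eq_one.1 h3
    have hi1 : i ∈ (S' : Finset (Fin n)) \ S := by rw [hi]; exact Finset.mem_singleton_self i
    rw [Finset.mem_sdiff] at hi1
    refine ⟨i, hi1.1, ?_⟩
    show (S' : Finset (Fin n)).erase i = S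
    rw [Finset.erase_eq, ← hi, Finset.sdiff_sdiff_eq_self h2]
  · intro i hi
    rfl

theorem rank_mat (n j : ℕ) : (mat n j).rank = min (n.choose j) (n.choose (j + 1)) := by
  have c1 : Fintype.card (lev n j) = n.choose j := by rw [Fintype.card_coe, card_lev]
  have c2 : Fintype.card (lev n (j + 1)) = n.choose (j + 1) := by rw [Fintype.card_coe, card_lev]
  rcases Nat.lt_or_ge (2 * j) n with h | h
  · have hr : (mat n j).rank = n.choose j := by
      rw [← Matrix.rank_transpose, Matrix.rank, LinearMap.finrank_range_of_inj, Module.finrank_pi,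
        c1]
      rw [← LinearMap.ker_eq_bot, LinearMap.ker_eq_bot']
      intro g hg
      have h0 : ∀ S' ∈ lev n (j + 1), up (ext0 g) S' = 0 := by
        intro S' hS'
        have := congrFun hg ⟨S', hS'⟩
        rw [up_eq (ext0 g) j ⟨S', hS'⟩]
        simp only [ext0_coe]
        rw [Matrix.mulVecLin_apply] at this
        simp only [Matrix.mulVec, dotProduct, Matrix.transpose_apply, Pi.zero_apply, mat] at this
        rw [← this]
        exact Finset.sum_congr rfl fun S _ => mul_comm _ _
      have h1 := up_inj (ext0 g) j h h0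
      ext S
      rw [← ext0_coe g S, h1 S S.2]
      rfl
    have := Matrix.rank_le_card_width (mat n j)
    rw [hr, c2] at this
    rw [hr, min_eq_left this]
  · have hr : (mat n j).rank = n.choose (j + 1) := by
      rw [Matrix.rank, LinearMap.finrank_range_of_inj, Module.finrank_pi, c2]
      rw [← LinearMap.ker_eq_bot, LinearMap.ker_eq_bot']
      intro f hf
      have h0 : ∀ S ∈ lev n j, dn (ext0 f) S = 0 := by
        intro S hS
        have := congrFun hf ⟨S, hS⟩
        rw [dn_eq (ext0 f) j ⟨S, hS⟩]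
        simp only [ext0_coe]
        rw [Matrix.mulVecLin_apply] at this
        simp only [Matrix.mulVec, dotProduct, Pi.zero_apply, mat] at this
        rw [← this]
        exact Finset.sum_congr rfl fun S _ => mul_comm _ _
      have h1 := dn_inj (ext0 f) j (by omega) h0
      ext S
      rw [← ext0_coe f S, h1 S S.2]
      rfl
    have := Matrix.rank_le_card_height (mat n j)
    rw [hr, c1] at this
    rw [hr, min_eq_right this]

/-- Selection: among the `(j+1)`-sets there are `min (n.choose j) (n.choose (j+1))` whose values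
are determined by the sums `dn` and the values at the other `(j+1)`-sets. -/
theorem inc (n j : ℕ) : ∃ (Φ : Finset (Finset (Fin n)))
    (al be : Finset (Fin n) → Finset (Fin n) → ℝ), Φ ⊆ lev n (j + 1) ∧
      Φ.card = min (n.choose j) (n.choose (j + 1)) ∧
      ∀ Y : Finset (Fin n) → ℝ, ∀ φ ∈ Φ,
        Y φ = ∑ S ∈ lev n j, al φ S * (∑ i ∈ Sᶜ, Y (insert i S))
          + ∑ S ∈ lev n (j + 1) \ Φ, be φ S * Y S := by
  classical
  obtain ⟨κ, a, ha, hsp, hli⟩ := exists_linearIndependent' ℝ (col n j)
  have : Fintype κ := Fintype.ofInjective a ha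
  have hcard : Fintype.card κ = min (n.choose j) (n.choose (j + 1)) := by
    rw [← rank_mat, Matrix.rank_eq_finrank_span_cols]
    have e : Set.range (mat n j).col = Set.range (col n j) := rfl
    rw [e, ← hsp, finrank_span_eq_card hli]
  let Lm : (κ →₀ ℝ) →ₗ[ℝ] (lev n j → ℝ) := Finsupp.linearCombination ℝ (col n j ∘ a)
  have hker : LinearMap.ker Lm = ⊥ := LinearMap.ker_eq_bot.2 hli
  obtain ⟨G, hG⟩ := LinearMap.exists_leftInverse_of_injective Lm hker
  have hGv : ∀ k, G (col n j (a k)) = Finsupp.single k 1 := by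
    intro k
    have := congrArg (fun q => q (Finsupp.single k 1)) hG
    simpa [Lm] using this
  let emb : κ → Finset (Fin n) := fun k => (a k : Finset (Fin n))
  have hemb : Function.Injective emb := fun x y h => ha (Subtype.ext h)
  let inv : Finset (Fin n) → Option κ := fun S => if h : ∃ k, emb k = S then some h.choose else none
  have hinv : ∀ k, inv (emb k) = some k := by
    intro k
    have h : ∃ k', emb k' = emb k := ⟨k, rfl⟩
    simp only [inv, h, dite_true]
    exact congrArg some (hemb h.choose_spec)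
  refine ⟨Finset.univ.image emb,
    fun φ S => (inv φ).elim 0 fun k =>
      if h : S ∈ lev n j then G (Pi.single ⟨S, h⟩ 1) k else 0,
    fun φ S => (inv φ).elim 0 fun k =>
      if h : S ∈ lev n (j + 1) then - G (col n j ⟨S, h⟩) k else 0, ?_, ?_, ?_⟩
  · intro S hS
    obtain ⟨k, -, rfl⟩ := Finset.mem_image.1 hS
    exact (a k).2
  · rw [Finset.card_image_of_injective _ hemb, Finset.card_univ, hcard]
  · intro Y φ hφ
    obtain ⟨k, -, rfl⟩ := Finset.mem_image.1 hφ
    simp only [hinv, Option.elim_some]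
    -- the vector `M Y`
    have hMY : (fun S : lev n j => dn Y S) = ∑ S' : lev n (j + 1), Y S' • col n j S' := by
      ext S
      rw [dn_eq]
      simp [Finset.sum_apply]
    have hMY2 : (fun S : lev n j => dn Y S) = ∑ S : lev n j, dn Y S • (Pi.single S (1 : ℝ) : lev n j → ℝ) := by
      ext S
      simp [Finset.sum_apply, Pi.single_apply]
    have h1 : G (fun S : lev n j => dn Y S) k = ∑ S' : lev n (j + 1), Y S' * G (col n j S') k := by
      rw [hMY, map_sum, Finsupp.finsetSum_apply]
      exact Finset.sum_congr rfl fun S _ => by simp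
    have h2 : G (fun S : lev n j => dn Y S) k
        = ∑ S : lev n j, dn Y S * G (Pi.single S 1) k := by
      conv_lhs => rw [hMY2]
      rw [map_sum, Finsupp.finsetSum_apply]
      exact Finset.sum_congr rfl fun S _ => by simp
    have h3 : ∑ S ∈ lev n j, (if h : S ∈ lev n j then G (Pi.single ⟨S, h⟩ 1) k else 0)
        * (∑ i ∈ Sᶜ, Y (insert i S)) = ∑ S : lev n j, dn Y S * G (Pi.single S 1) k := by
      rw [← Finset.sum_coe_sort (lev n j)]
      refine Finset.sum_congr rfl fun S _ => ?_
      simp only [Finset.coe_mem, dite_true]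
      rw [mul_comm]
      rfl
    have h4 : ∑ S' : lev n (j + 1), Y S' * G (col n j S') k
        = ∑ S' ∈ lev n (j + 1), Y S' * (if h : S' ∈ lev n (j + 1) then G (col n j ⟨S', h⟩) k else 0) := by
      rw [← Finset.sum_coe_sort (lev n (j + 1))]
      refine Finset.sum_congr rfl fun S _ => ?_
      simp only [Finset.coe_mem, dite_true]
    have hsub : Finset.univ.image emb ⊆ lev n (j + 1) := by
      intro S hS
      obtain ⟨k, -, rfl⟩ := Finset.mem_image.1 hS
      exact (a k).2
    have h5 : ∑ S' ∈ Finset.univ.image emb, Y S' *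
        (if h : S' ∈ lev n (j + 1) then G (col n j ⟨S', h⟩) k else 0) = Y (emb k) := by
      rw [Finset.sum_image (fun x _ y _ h => hemb h)]
      rw [Finset.sum_eq_single k]
      · have : emb k ∈ lev n (j + 1) := (a k).2
        simp only [this, dite_true]
        have e : (⟨emb k, this⟩ : lev n (j + 1)) = a k := rfl
        rw [e, hGv]
        simp
      · intro k' _ hk'
        have : emb k' ∈ lev n (j + 1) := (a k').2
        simp only [this, dite_true]
        have e : (⟨emb k', this⟩ : lev n (j + 1)) = a k' := rfl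
        rw [e, hGv]
        simp [hk']
      · intro h
        exact absurd (Finset.mem_univ k) h
    have h6 := Finset.sum_sdiff hsub (f := fun S' => Y S' *
        (if h : S' ∈ lev n (j + 1) then G (col n j ⟨S', h⟩) k else 0))
    rw [h5, ← h4, ← h1, h2] at h6
    rw [h3, ← h6]
    have h7 : ∑ S ∈ lev n (j + 1) \ Finset.univ.image emb,
        (if h : S ∈ lev n (j + 1) then - G (col n j ⟨S, h⟩) k else 0) * Y S
        = - ∑ S ∈ lev n (j + 1) \ Finset.univ.image emb, Y S *
        (if h : S ∈ lev n (j + 1) then G (col n j ⟨S, h⟩) k else 0) := by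
      rw [← Finset.sum_neg_distrib]
      refine Finset.sum_congr rfl fun S hS => ?_
      have : S ∈ lev n (j + 1) := (Finset.mem_sdiff.1 hS).1
      simp only [this, dite_true]
      ring
    rw [h7]
    ring

/-- The number of selected sets in all levels. -/
theorem sum_min (n : ℕ) (hn : 1 ≤ n) :
    (∑ j ∈ Finset.range (n - 1), min (n.choose j) (n.choose (j + 1))) + n.choose (n / 2) + 1
      = 2 ^ n := by
  have key : ∀ (c : ℕ → ℕ) (q N : ℕ), q ≤ N →
      (∑ j ∈ Finset.range N, (if j < q then c j else c (j + 1))) + c q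
        = ∑ j ∈ Finset.range (N + 1), c j := by
    intro c q N hqN
    induction N, hqN using Nat.le_induction with
    | base =>
      rw [Finset.sum_range_succ]
      congr 1
      exact Finset.sum_congr rfl fun j hj => if_pos (Finset.mem_range.1 hj)
    | succ N hN ih =>
      rw [Finset.sum_range_succ, Finset.sum_range_succ _ (N + 1), ← ih, if_neg (by omega)]
      ring
  have hmin : ∀ j ∈ Finset.range n, min (n.choose j) (n.choose (j + 1))
      = if j < n / 2 then n.choose j else n.choose (j + 1) := by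
    intro j _
    have h := Nat.choose_succ_right_eq n j
    split_ifs with hj
    · exact min_eq_left (Nat.choose_le_succ_of_lt_half_left hj)
    · refine min_eq_right ?_
      have h1 : n - j ≤ j + 1 := by omega
      have h2 : n.choose (j + 1) * (j + 1) ≤ n.choose j * (j + 1) := by
        rw [h]
        exact Nat.mul_le_mul_left _ h1
      exact Nat.le_of_mul_le_mul_right h2 (Nat.succ_pos j)
  have h1 := key (fun j => n.choose j) (n / 2) n (Nat.div_le_self n 2)
  rw [Nat.sum_range_choose, ← Finset.sum_congr rfl hmin] at h1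
  obtain ⟨m, rfl⟩ : ∃ m, n = m + 1 := ⟨n - 1, by omega⟩
  rw [Finset.sum_range_succ] at h1
  have h2 : min ((m + 1).choose m) ((m + 1).choose (m + 1)) = 1 := by
    rw [Nat.choose_self]
    exact min_eq_right (Nat.choose_pos (by omega))
  rw [h2] at h1
  rw [Nat.add_sub_cancel]
  omega

end Pool.H1.STE
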