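import Pool.Agent.H90.STE.Stmts2

/-!
# SB: one scale
-/

set_option autoImplicit false

namespace Pool.STE

open Finset Real MeasureTheory
open scoped RealInnerProductSpace ENNReal
open Pool.Agent.H49.Ent Pool.Agent.H32.Dense Pool.STK Pool.KA
open Pool.Agent.H53.Kak (E tube)
open Pool.Agent.H55.HDim

theorem sb (hSA : SAStmt) (hDN : DNStmt) : SBStmt := by
  intro d ε hd hε
  obtain ⟨M, hM, P, K, C, hP, hK, hC, hdn⟩ := hDN d hd (ε / 4) 10 (by positivity) (by norm_num)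
  have hMr : (0 : ℝ) < M := by exact_mod_cast hM
  set η : ℝ := ε / (12 * M * (K + 1)) with hη
  have hη0 : 0 < η := by positivity
  refine ⟨η, P, hη0, hP, ?_⟩
  intro C₀ hC₀
  obtain ⟨C₁, hC₁, hsa⟩ := hSA d M η C₀ hd hM hη0 hC₀
  have hC₁0 : 0 < C₁ := by linarith
  have hom := om_pos d
  set κ : ℝ := min (om d / 2 ^ (d + 2)) 1 with hκ
  have hκ0 : 0 < κ := lt_min (by positivity) one_pos
  set c₀ : ℝ := C⁻¹ * κ ^ P * ((2 * C₁) ^ (M * K))⁻¹ * C₁⁻¹ * (2 ^ (d + 1) * om d)⁻¹ with hc₀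
  have hc₀0 : 0 < c₀ := by positivity
  set c : ℝ := min c₀ (min C₁⁻¹ (η / M)) with hc
  have hc0 : 0 < c := lt_min hc₀0 (lt_min (by positivity) (by positivity))
  refine ⟨c, hc0, ?_⟩
  intro δ α β hδ hδ2 hβ hβ1 hα Λ hΛ Ω x hΩ hx hvol F y hF
  have hδ1 : δ < 1 := by linarith
  have hα' : C₁ * δ ^ (η / M) ≤ α := by
    refine le_trans ?_ hα
    have h1 : C₁ ≤ c⁻¹ := by
      rw [← inv_inv C₁]
      exact inv_anti₀ hc0 ((min_le_right _ _).trans (min_le_left _ _))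
    have h2 : δ ^ (η / M) ≤ δ ^ c := Real.rpow_le_rpow_of_exponent_ge hδ hδ1.le
      ((min_le_right _ _).trans (min_le_right _ _))
    exact mul_le_mul h1 h2 (by positivity) (by positivity)
  have hα0 : 0 < α := lt_of_lt_of_le (by positivity) hα'
  obtain ⟨N, w, hw, hsep, hN, hcov⟩ := hsa δ α hδ hδ1 hα' Λ hΛ Ω x hΩ hx hvol
  set X : Set (E d) := ⋃ n ∈ F, Metric.closedBall (y n) (2 * δ) with hX
  have hXm : MeasurableSet X := F.measurableSet_biUnion fun n _ => measurableSet_closedBall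
  have hlam1 : κ * β ≤ 1 := mul_le_one₀ (min_le_right _ _) hβ.le hβ1
  have hmass : ∀ i : Fin N, ENNReal.ofReal (κ * β * δ ^ d) ≤
      volume (X ∩ tube δ (x (w i) + (1 / 2 : ℝ) • edir (w i)) (edir (w i))) := by
    intro i
    obtain ⟨Q, hQ1, hQ2⟩ := hF (w i) (hw i)
    have h1 := tube_mass (p := x (w i)) (norm_edir (w i)) hδ hδ2 F y Q hQ2 hQ1
    refine le_trans (ENNReal.ofReal_le_ofReal ?_) h1
    have h2 : κ * β ≤ β * (om d / 2 ^ (d + 2)) := by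
      rw [mul_comm]
      exact mul_le_mul_of_nonneg_left (min_le_left _ _) hβ.le
    exact mul_le_mul_of_nonneg_right h2 (by positivity)
  have hmain := hdn δ hδ hδ1 (Fin N) (fun i => x (w i) + (1 / 2 : ℝ) • edir (w i))
    (fun i => edir (w i)) (fun i => norm_edir _) hsep _ hcov (κ * β) X (by positivity) hlam1 hXm
    hmass
  have hupper : volume X ≤ ENNReal.ofReal ((F.card : ℝ) * ((2 * δ) ^ (d + 1) * om d)) := by
    rw [hX]
    refine (measure_biUnion_finset_le _ _).trans ?_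
    have h1 : ∀ n ∈ F, volume (Metric.closedBall (y n) (2 * δ)) =
        ENNReal.ofReal ((2 * δ) ^ (d + 1) * om d) := fun n _ =>
      volume_closedBall_eq _ (by positivity)
    rw [Finset.sum_congr rfl h1, Finset.sum_const, nsmul_eq_mul, ← ENNReal.ofReal_natCast,
      ← ENNReal.ofReal_mul (by positivity)]
  have hfinal := (ENNReal.ofReal_le_ofReal_iff (by positivity)).mp (hmain.trans hupper)
  rw [Fintype.card_fin] at hfinal
  -- the product of the covering numbers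
  set Pi0 : ℝ := ∏ r ∈ Finset.Ico 1 M, ((⌈C₁ * (δ ^ ((r : ℝ) / M)) ^ (-(3 * η))⌉₊ : ℕ) : ℝ) with hPi
  set B : ℝ := 2 * C₁ * δ ^ (-(3 * η)) with hB
  have hpow1 : ∀ r : ℕ, r < M → 1 ≤ (δ ^ ((r : ℝ) / M)) ^ (-(3 * η)) ∧
      (δ ^ ((r : ℝ) / M)) ^ (-(3 * η)) ≤ δ ^ (-(3 * η)) := by
    intro r hr
    rw [← Real.rpow_mul hδ.le]
    have h1 : 0 ≤ (r : ℝ) / M := by positivity
    have h2 : (r : ℝ) / M ≤ 1 := by
      rw [div_le_one hMr]
      exact_mod_cast hr.le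
    constructor
    · exact Real.one_le_rpow_of_pos_of_le_one_of_nonpos hδ hδ1.le (by nlinarith)
    · exact Real.rpow_le_rpow_of_exponent_ge hδ hδ1.le (by nlinarith)
  have hB1 : 1 ≤ B := by
    have h1 : 1 ≤ δ ^ (-(3 * η)) :=
      Real.one_le_rpow_of_pos_of_le_one_of_nonpos hδ hδ1.le (by linarith)
    have h7 : 1 * 1 ≤ C₁ * δ ^ (-(3 * η)) := mul_le_mul hC₁ h1 zero_le_one hC₁0.le
    have h8 : B = C₁ * δ ^ (-(3 * η)) + C₁ * δ ^ (-(3 * η)) := by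
      rw [hB]
      ring
    rw [h8]
    linarith
  have hfac : ∀ r ∈ Finset.Ico 1 M, (1 : ℝ) ≤ ((⌈C₁ * (δ ^ ((r : ℝ) / M)) ^ (-(3 * η))⌉₊ : ℕ) : ℝ) ∧
      ((⌈C₁ * (δ ^ ((r : ℝ) / M)) ^ (-(3 * η))⌉₊ : ℕ) : ℝ) ≤ B := by
    intro r hr
    have hr' := (Finset.mem_Ico.1 hr).2
    obtain ⟨h1, h2⟩ := hpow1 r hr'
    have h3 : 1 ≤ C₁ * (δ ^ ((r : ℝ) / M)) ^ (-(3 * η)) := by
      have := mul_le_mul hC₁ h1 zero_le_one hC₁0.le
      linarith
    constructor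
    · exact h3.trans (Nat.le_ceil _)
    · have h4 := (Nat.ceil_lt_add_one (by linarith : 0 ≤ C₁ * (δ ^ ((r : ℝ) / M)) ^ (-(3 * η)))).le
      refine h4.trans ?_
      have h5 := mul_le_mul_of_nonneg_left h2 hC₁0.le
      have h6 : 1 ≤ δ ^ (-(3 * η)) := h1.trans h2
      have h7 : 1 * 1 ≤ C₁ * δ ^ (-(3 * η)) := mul_le_mul hC₁ h6 zero_le_one hC₁0.le
      have h8 : B = C₁ * δ ^ (-(3 * η)) + C₁ * δ ^ (-(3 * η)) := by
        rw [hB]
        ring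
      rw [h8]
      linarith
  have hPi0 : 0 < Pi0 := Finset.prod_pos fun r hr => lt_of_lt_of_le one_pos (hfac r hr).1
  have hPiB : Pi0 ≤ B ^ (M : ℝ) := by
    have h1 : Pi0 ≤ ∏ _r ∈ Finset.Ico 1 M, B :=
      Finset.prod_le_prod (fun r hr => (zero_le_one.trans (hfac r hr).1)) fun r hr => (hfac r hr).2
    rw [Finset.prod_const, Nat.card_Ico] at h1
    refine h1.trans ?_
    rw [Real.rpow_natCast]
    exact pow_le_pow_right₀ hB1 (Nat.sub_le _ _)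
  have hPiK : ((2 * C₁) ^ (M * K))⁻¹ * δ ^ (3 * η * (M * K)) ≤ Pi0 ^ (-K) := by
    rw [Real.rpow_neg hPi0.le]
    have h1 : Pi0 ^ K ≤ (B ^ (M : ℝ)) ^ K := Real.rpow_le_rpow hPi0.le hPiB hK
    have h2 : (B ^ (M : ℝ)) ^ K = (2 * C₁) ^ (M * K) * δ ^ (-(3 * η * (M * K))) := by
      rw [← Real.rpow_mul (by linarith), hB, Real.mul_rpow (by positivity) (by positivity),
        ← Real.rpow_mul hδ.le]
      congr 2
      ring
    rw [h2] at h1
    have h3 : ((2 * C₁) ^ (M * K))⁻¹ * δ ^ (3 * η * (M * K)) =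
        ((2 * C₁) ^ (M * K) * δ ^ (-(3 * η * (M * K))))⁻¹ := by
      rw [mul_inv, Real.rpow_neg hδ.le, inv_inv]
    rw [h3]
    exact inv_anti₀ (by positivity) h1
  have hexp : δ ^ ε ≤ δ ^ (ε / 4) * δ ^ (3 * η * (M * K)) := by
    rw [← Real.rpow_add hδ]
    refine Real.rpow_le_rpow_of_exponent_ge hδ hδ1.le ?_
    have h1 : 3 * η * (M * K) ≤ ε / 4 := by
      rw [hη]
      have : 3 * (ε / (12 * M * (K + 1))) * (M * K) = ε / 4 * (K / (K + 1)) := by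
        field_simp
        ring
      rw [this]
      have h5 : K / (K + 1) ≤ 1 := by
        rw [div_le_one (by positivity)]
        linarith
      nlinarith
    linarith
  -- the conclusion
  have hden : 0 < (2 * δ) ^ (d + 1) * om d := by positivity
  have hNδ : C₁⁻¹ * α ≤ N * δ ^ d := by
    rw [inv_mul_le_iff₀ hC₁0]
    linarith
  have hlow : C⁻¹ * (κ ^ P * β ^ P) * (((2 * C₁) ^ (M * K))⁻¹ * δ ^ ε) * (C₁⁻¹ * α) ≤
      (F.card : ℝ) * ((2 * δ) ^ (d + 1) * om d) := by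
    refine le_trans ?_ hfinal
    have e1 : (κ * β) ^ P = κ ^ P * β ^ P := Real.mul_rpow hκ0.le hβ.le
    rw [e1]
    have h1 : ((2 * C₁) ^ (M * K))⁻¹ * δ ^ ε ≤ δ ^ (ε / 4) * Pi0 ^ (-K) := by
      calc ((2 * C₁) ^ (M * K))⁻¹ * δ ^ ε
          ≤ ((2 * C₁) ^ (M * K))⁻¹ * (δ ^ (ε / 4) * δ ^ (3 * η * (M * K))) :=
            mul_le_mul_of_nonneg_left hexp (by positivity)
        _ = δ ^ (ε / 4) * (((2 * C₁) ^ (M * K))⁻¹ * δ ^ (3 * η * (M * K))) := by ring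
        _ ≤ δ ^ (ε / 4) * Pi0 ^ (-K) := mul_le_mul_of_nonneg_left hPiK (by positivity)
    calc C⁻¹ * (κ ^ P * β ^ P) * (((2 * C₁) ^ (M * K))⁻¹ * δ ^ ε) * (C₁⁻¹ * α)
        ≤ C⁻¹ * (κ ^ P * β ^ P) * (δ ^ (ε / 4) * Pi0 ^ (-K)) * (N * δ ^ d) := by gcongr
      _ = C⁻¹ * (κ ^ P * β ^ P) * δ ^ (ε / 4) * Pi0 ^ (-K) * (N * δ ^ d) := by ring
  rw [← div_le_iff₀ hden] at hlow
  refine le_trans ?_ hlow
  have e2 : δ ^ (-((d : ℝ) + 1 - ε)) = δ ^ ε * (δ ^ (d + 1))⁻¹ := by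
    rw [← Real.rpow_natCast, ← Real.rpow_neg hδ.le, ← Real.rpow_add hδ]
    congr 1
    push_cast
    ring
  have e3 : C⁻¹ * (κ ^ P * β ^ P) * (((2 * C₁) ^ (M * K))⁻¹ * δ ^ ε) * (C₁⁻¹ * α) /
      ((2 * δ) ^ (d + 1) * om d) = c₀ * β ^ P * α * (δ ^ ε * (δ ^ (d + 1))⁻¹) := by
    rw [hc₀, mul_pow]
    field_simp
  rw [e2, e3]
  have h9 : c ≤ c₀ := min_le_left _ _
  gcongr

end Pool.STE
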